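import Mathlib
import Pool.Agent.H241R2.TFFinal

set_option autoImplicit false

namespace Pool.Agent.Results.MP_59e2db_co.LogLowerBound

open Pool.Agent.H241R2.TF

/-- For every `n ≥ 4` there is a Hamiltonian graph on `n` vertices with minimum degree at least
`⌊log_4 n⌋` all of whose 2-factors have an odd number of cycles. Hence the least minimum degree
`delta0 n` that forces a 2-factor with exactly two cycles in a Hamiltonian graph on `n` vertices
is at least `⌊log_4 n⌋ + 1`; in particular it is not bounded by a constant. -/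
theorem result (n : ℕ) (hn : 4 ≤ n) :
    (∃ G : SimpleGraph (Fin n),
      (∀ v, Nat.log 4 n ≤ (G.neighborSet v).ncard) ∧
      (∃ F, IsTwoFactor G F ∧ Nat.card F.ConnectedComponent = 1) ∧
      (∀ F, IsTwoFactor G F → Odd (Nat.card F.ConnectedComponent))) ∧
    Nat.log 4 n + 1 ≤ delta0 n := by
  have h1 : 1 ≤ Nat.log 4 n := Nat.log_pos (by norm_num) hn
  obtain ⟨K, hK⟩ : ∃ K, Nat.log 4 n = K + 1 := ⟨Nat.log 4 n - 1, by omega⟩
  have h2 : 4 ^ (K + 1) ≤ n := by
    rw [← hK]
    exact Nat.pow_log_le_self 4 (by omega)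
  rw [hK]
  exact ⟨exists_graph K n h2, by have := delta0_ge K n h2; omega⟩

end Pool.Agent.Results.MP_59e2db_co.LogLowerBound
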